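import Mathlib
import Pool.Agent.Q72.Skew.Main

/-!
# A stable manifold of a skew product which is a complex line

For every `d ≥ 2` there are an admissible skew product over `z ↦ z ^ d` (all fibre maps `G_λ` are
linear, with all eigenvalues equal to `1/2`) and a point `p₁` of the unit circle such that the
stable manifold of `(p₁, 0, 0)` is the complex line `w₁ = 4 w₂`; it is not the image of an injective
holomorphic map of `ℂ²`.
-/

set_option autoImplicit false

open Q72.Skew

namespace Pool.Agent.Results.MP_e40659_an.StableSetIsALine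

theorem result (d : ℕ) (hd : 2 ≤ d) :
    ∃ (G : ℂ → ℂ × ℂ → ℂ × ℂ) (p₁ : ℂ), IsAdmissible G ∧ ‖p₁‖ = 1 ∧
      stable d G p₁ = {w : ℂ × ℂ | w.1 = 4 * w.2} ∧
      ¬ ∃ Φ : ℂ × ℂ → ℂ × ℂ, Differentiable ℂ Φ ∧ Function.Injective Φ ∧
        Set.range Φ = stable d G p₁ := by
  obtain ⟨p, q, hp, hpq, h1, h2⟩ := exists_root d hd
  refine ⟨GG p q, p, admissible p q, hp, stable_eq hpq h1 h2, ?_⟩
  rintro ⟨Φ, hΦ, hinj, hr⟩
  rw [stable_eq hpq h1 h2] at hr
  exact no_inj Φ hΦ hinj fun z => by
    have : Φ z ∈ Set.range Φ := ⟨z, rfl⟩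
    rwa [hr] at this

end Pool.Agent.Results.MP_e40659_an.StableSetIsALine
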